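import Pool.Agent.AT5.Stmts1
import Pool.Agent.Helper25_K9.PRG
import Pool.Agent.Helper25_K9.ADA
import Pool.Agent.Helper50_PP.Blk3

/-!
# Squad AT5, row INQ: the inner products on the regular elements
-/

set_option autoImplicit false

open scoped BigOperators

noncomputable section

namespace Pool.Agent.PP.T5.H24

open Pool.Agent.Helper51_AWC Pool.Agent.Helper79_WRA Pool.Agent.PP Pool.Agent.PP.KF
open Pool.Agent.PP.K9 Pool.Agent.PP.K9.H97 Pool.Agent.PP.H75 Pool.Agent.PP.T3 Pool.Agent.PP.T2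
open Pool.Agent.PP.K9.H25

attribute [local instance] Ideal.Quotient.field

/-- an element of the local ring whose product with a power of `ℓ` is an integer is an integer -/
theorem int_of_RM {ℓ : ℕ} (hℓ : ℓ.Prime) {M : Ideal (integralClosure ℤ ℂ)} [M.IsMaximal]
    (hM : (ℓ : integralClosure ℤ ℂ) ∈ M) :
    ∀ (A : ℕ) (x : ℂ), x ∈ RM M → ∀ n : ℤ, (ℓ : ℂ) ^ A * x = n → ∃ z : ℤ, x = z := by
  intro A
  induction A with
  | zero =>
    intro x _ n h
    rw [pow_zero, one_mul] at h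
    exact ⟨n, h⟩
  | succ A ih =>
    intro x hx n h
    have hpos : (ℓ : ℂ) ≠ 0 := by exact_mod_cast hℓ.pos.ne'
    have h0 : ∀ k : ℕ, (ℓ : ℂ) ^ k ∈ RM M := by
      intro k
      have h1 := (rr_nat (M := M) (ℓ ^ k)).1
      push_cast at h1
      exact h1
    have h1 : rr M (n : ℂ) = 0 := by
      have h2 : (n : ℂ) = ((ℓ : ℕ) : ℂ) * ((ℓ : ℂ) ^ A * x) := by
        rw [← h, pow_succ]
        ring
      rw [h2, rr_mul (rr_nat ℓ).1 ((RM M).mul_mem (h0 A) hx), (rr_nat ℓ).2]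
      have h3 : (ℓ : FF M) = 0 := by
        have := Ideal.Quotient.eq_zero_iff_mem.2 hM
        rwa [map_natCast] at this
      rw [h3, zero_mul]
    obtain ⟨n', hn'⟩ := (dvd_of_rr hℓ hM).1 h1
    refine ih x hx n' ?_
    have h4 : (ℓ : ℂ) * ((ℓ : ℂ) ^ A * x) = ℓ * n' := by
      rw [← mul_assoc, ← pow_succ', h, hn']
      push_cast
      ring
    exact mul_left_cancel₀ hpos h4

theorem reg_conj {G : Type} [Group G] {ℓ : ℕ} (x y : G) : Reg ℓ (y * x * y⁻¹) ↔ Reg ℓ x := by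
  unfold Reg
  have : orderOf (y * x * y⁻¹) = orderOf x :=
    orderOf_injective (MulAut.conj y).toMonoidHom (MulAut.conj y).injective x
  rw [this]

open Classical in
/-- `|H| rip κ ψ = κ(1) r` with `r` an algebraic integer -/
theorem rip_int {M : Ideal (integralClosure ℤ ℂ)} [M.IsMaximal] {ℓ : ℕ} {H : Type} [Group H]
    [Finite H] {κ ψ : H → ℂ} (hκ : κ ∈ Irr H) (hψ : ψ ∈ Irr H) :
    ∃ r ∈ RM M, (Nat.card H : ℂ) * rip ℓ κ ψ = κ 1 * r := by
  have := Fintype.ofFinite H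
  have hc : (Fintype.card H : ℂ) ≠ 0 := by exact_mod_cast Fintype.card_ne_zero
  have hκ1 : κ 1 ≠ 0 := by
    obtain ⟨d, hd0, hd⟩ := irr_one hκ
    rw [hd]
    exact_mod_cast hd0.ne'
  obtain ⟨F, hF⟩ : ∃ F : H → integralClosure ℤ ℂ, ∀ x,
      ((F x : integralClosure ℤ ℂ) : ℂ) = if Reg ℓ x then ψ x⁻¹ else 0 := by
    refine ⟨fun x => if Reg ℓ x then ⟨ψ x⁻¹, irr_integral hψ x⁻¹⟩ else 0, ?_⟩
    intro x
    by_cases hx : Reg ℓ x
    · simp only [if_pos hx]
    · simp only [if_neg hx]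
      rfl
  have hFc : H50.Cl F := by
    intro x y
    apply Subtype.ext
    rw [hF, hF]
    have h1 : (y * x * y⁻¹)⁻¹ = y * x⁻¹ * y⁻¹ := by group
    rw [h1, irr_conj hψ]
    simp only [reg_conj]
  obtain ⟨-, h2⟩ := H50.res_irr (M := M) F hFc hκ
  refine ⟨_, RM_of_int h2, ?_⟩
  rw [rip, ← mul_assoc, Nat.card_eq_fintype_card, mul_inv_cancel₀ hc, one_mul,
    finsum_eq_sum_of_fintype]
  simp only [H50.om]
  rw [mul_div_cancel₀ _ hκ1]
  refine Finset.sum_congr rfl fun x _ => ?_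
  rw [hF, finsum_eq_if]
  by_cases hx : Reg ℓ x
  · rw [if_pos hx, if_pos hx, H94.irr_star hψ, mul_comm]
  · rw [if_neg hx, if_neg hx, zero_mul]

/-- row INQ -/
theorem inq (sei : SeiStmt) (zim : ZimStmt) (deg : DegStmt) : InqStmt := by
  classical
  intro ℓ _ M _ hM H _ _ b hb V hTp κ hκ κ' hκ'
  have hℓ : ℓ.Prime := Fact.out
  have := Fintype.ofFinite H
  have hH : (Nat.card H : ℂ) ≠ 0 := by exact_mod_cast Nat.card_pos.ne'
  obtain ⟨P⟩ : Nonempty (Sylow ℓ H) := inferInstance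
  obtain ⟨A, hA⟩ := IsPGroup.iff_card.1 P.isPGroup'
  -- the product with the order of a Sylow subgroup is an integer
  obtain ⟨z, hz⟩ : ∃ z : ℤ, (Nat.card P : ℂ) * rip ℓ κ κ' = z := by
    obtain ⟨z, hz⟩ := zi_ipn ((zim H _ (sei ℓ H P).1 κ (AddSubgroup.subset_closure hκ.1)).1)
      (AddSubgroup.subset_closure hκ'.1 : κ' ∈ ZI H)
    refine ⟨z, ?_⟩
    rw [← hz, ipn_eq, rip, Nat.card_eq_fintype_card (α := H), finsum_eq_sum_of_fintype,
      mul_left_comm, Finset.mul_sum]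
    congr 1
    refine Finset.sum_congr rfl fun x _ => ?_
    rw [finsum_eq_if]
    by_cases hx : Reg ℓ x
    · rw [if_pos hx, if_pos hx, mul_assoc]
    · rw [if_neg hx, if_neg hx, zero_mul, zero_mul, mul_zero]
  -- the product with the order of `V` is in the local ring
  have hVR : (Nat.card V : ℂ) * rip ℓ κ κ' ∈ RM M := by
    obtain ⟨r, hr, hrr⟩ := rip_int (M := M) (ℓ := ℓ) hκ.1 hκ'.1
    have h1 : (Nat.card V : ℂ) * rip ℓ κ κ' = (Nat.card V * κ 1 / Nat.card H : ℂ) * r := by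
      have h2 : rip ℓ κ κ' = (Nat.card H : ℂ)⁻¹ * (κ 1 * r) := by
        rw [← hrr, inv_mul_cancel_left₀ hH]
      rw [h2]
      field_simp
    rw [h1]
    exact (RM M).mul_mem (deg ℓ M hM H b hb V hTp κ hκ) hr
  refine int_of_RM hℓ hM A _ hVR (Nat.card V * z) ?_
  rw [mul_left_comm, ← Nat.cast_pow, ← hA]
  have h3 : (Nat.card P : ℂ) * rip ℓ κ κ' = z := hz
  push_cast
  rw [← h3]

end Pool.Agent.PP.T5.H24
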